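import Pool.Agent.Lib.MP_7682a8_an.KB.Iface

/-!
MP_7682a8_an, project KB, module ROT: rotation.
-/

set_option autoImplicit false

open Metric Set MeasureTheory Filter
open scoped Topology

namespace Pool.Agent.Lib.MP_7682a8_an.KB.H18

theorem rot : RotStmt := by
  intro d hd h g hh hg h0 h1 g0 g1 hlt hinj w hw
  by_contra hno
  have hw0 : w ≠ 0 := by
    rintro rfl
    apply hno
    refine ⟨0, by simp, ?_⟩
    simp [h0, g0]
  set δ : ℝ := ‖w‖ with hδ
  have hδ0 : 0 < δ := norm_pos_iff.mpr hw0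
  have hδc : (δ : ℂ) ≠ 0 := by exact_mod_cast hδ0.ne'
  obtain ⟨l, hl⟩ : ∃ l : ℂ, l = -w / δ := ⟨_, rfl⟩
  have hl1 : ‖l‖ = 1 := by
    rw [hl, norm_div, norm_neg, Complex.norm_real, Real.norm_of_nonneg hδ0.le, ← hδ,
      div_self hδ0.ne']
  have hwl : w = -(δ : ℂ) * l := by
    rw [hl]; field_simp
  have hll : starRingEnd ℂ l * l = 1 := by
    rw [mul_comm, Complex.mul_conj, Complex.normSq_eq_norm_sq, hl1]; norm_num
  have hmap : ∀ z ∈ ball (0 : ℂ) 1, l * z ∈ ball (0 : ℂ) 1 := by
    intro z hz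
    rw [mem_ball_zero_iff] at hz ⊢
    rw [norm_mul, hl1, one_mul]; exact hz
  have hball : ∀ z ∈ ball (0 : ℂ) 1, ball (0 : ℂ) 1 ∈ 𝓝 z :=
    fun z hz => isOpen_ball.mem_nhds hz
  have hcomp : ∀ F : ℂ → ℂ, DifferentiableOn ℂ F (ball (0 : ℂ) 1) → ∀ c : ℂ,
      ∀ z ∈ ball (0 : ℂ) 1, HasDerivAt (fun z => c * F (l * z)) (c * (deriv F (l * z) * l)) z := by
    intro F hF c z hz
    have hz' := hmap z hz
    have e1 : HasDerivAt F (deriv F (l * z)) (l * z) :=
      (hF.differentiableAt (hball _ hz')).hasDerivAt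
    have e2 : HasDerivAt (fun z : ℂ => l * z) l z := by
      simpa using (hasDerivAt_id z).const_mul l
    exact (e1.comp z e2).const_mul c
  have hdh : ∀ z ∈ ball (0 : ℂ) 1, deriv (fun z => starRingEnd ℂ l * h (l * z)) z =
      deriv h (l * z) := by
    intro z hz
    rw [(hcomp h hh _ z hz).deriv]
    calc starRingEnd ℂ l * (deriv h (l * z) * l) = (starRingEnd ℂ l * l) * deriv h (l * z) := by
          ring
      _ = _ := by rw [hll, one_mul]
  have hdg : ∀ z ∈ ball (0 : ℂ) 1, deriv (fun z => l * g (l * z)) z =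
      l * (deriv g (l * z) * l) := fun z hz => (hcomp g hg _ z hz).deriv
  have h0b : (0 : ℂ) ∈ ball (0 : ℂ) 1 := by simp
  have hff : ∀ z : ℂ, starRingEnd ℂ l * h (l * z) + starRingEnd ℂ (l * g (l * z)) =
      starRingEnd ℂ l * (h (l * z) + starRingEnd ℂ (g (l * z))) := by
    intro z
    rw [map_mul]; ring
  have hlc : starRingEnd ℂ l ≠ 0 := by
    intro h'
    rw [h', zero_mul] at hll
    exact zero_ne_one hll
  have hOm : Om (fun z => starRingEnd ℂ l * h (l * z)) (fun z => l * g (l * z)) δ := by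
    refine ⟨fun z hz => ((hcomp h hh _ z hz).differentiableAt).differentiableWithinAt,
      fun z hz => ((hcomp g hg _ z hz).differentiableAt).differentiableWithinAt, ?_, ?_, ?_, ?_,
      ?_, ?_, hδ0, ?_⟩
    · simp [h0]
    · rw [hdh 0 h0b, mul_zero, h1]
    · simp [g0]
    · rw [hdg 0 h0b, mul_zero, g1]; ring
    · intro z hz
      rw [hdh z hz, hdg z hz, norm_mul, norm_mul, hl1, one_mul, mul_one]
      exact hlt _ (hmap z hz)
    · intro z hz z' hz' he
      simp only at he
      rw [hff z, hff z'] at he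
      have e1 := mul_left_cancel₀ hlc he
      have e2 := hinj (hmap z hz) (hmap z' hz') e1
      have hl0 : l ≠ 0 := by
        intro h'
        rw [h', norm_zero] at hl1
        exact zero_ne_one hl1
      exact mul_left_cancel₀ hl0 e2
    · intro z hz he
      rw [hff z] at he
      apply hno
      refine ⟨l * z, hmap z hz, ?_⟩
      simp only
      have e1 : l * (starRingEnd ℂ l * (h (l * z) + starRingEnd ℂ (g (l * z)))) = l * -(δ : ℂ) := by
        rw [he]
      have e2 : l * (starRingEnd ℂ l * (h (l * z) + starRingEnd ℂ (g (l * z)))) =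
          h (l * z) + starRingEnd ℂ (g (l * z)) := by
        rw [← mul_assoc, mul_comm l, hll, one_mul]
      rw [← e2, e1, hwl]; ring
  have h2 := hd _ _ δ hOm
  rw [mem_ball_zero_iff] at hw
  exact absurd hw (not_lt.mpr h2)

end Pool.Agent.Lib.MP_7682a8_an.KB.H18
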